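import Mathlib

open MeasureTheory Set Finset

namespace Pool.Agent.Results.MP_768819_an.Circuit

/-- Every closed polygon through unit vectors whose convex hull contains 0 has length at least 4. -/
theorem result {X : Type*} [NormedAddCommGroup X] [NormedSpace ℝ X] (r : ℕ) (hr : 2 ≤ r)
    (p : Fin r → X) (hp : ∀ i, ‖p i‖ = 1) (h0 : (0 : X) ∈ convexHull ℝ (Set.range p))
    (σ : Equiv.Perm (Fin r)) :
    4 ≤ ∑ k : Fin r, ‖p (σ (finRotate r k)) - p (σ k)‖ := by
  obtain ⟨n, rfl⟩ : ∃ n, r = n + 1 := ⟨r - 1, by omega⟩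
  let q : ℕ → X := fun k => p (σ (Fin.ofNat (n + 1) k))
  let t : ℕ → ℝ := fun k => ∑ i ∈ range k, ‖q (i + 1) - q i‖
  have hL : ∑ k : Fin (n + 1), ‖p (σ (finRotate _ k)) - p (σ k)‖ = t (n + 1) := by
    rw [show t (n + 1) = ∑ k : Fin (n + 1), ‖q (k + 1) - q k‖ from
      (Fin.sum_univ_eq_sum_range (fun i => ‖q (i + 1) - q i‖) _).symm]
    refine sum_congr rfl fun k _ => ?_
    have a : Fin.ofNat (n + 1) (k + 1) = finRotate _ k := by
      rw [finRotate_apply]; ext; simp [Fin.val_add]
    have b : Fin.ofNat (n + 1) k = k := by simp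
    simp only [q, a, b]
  have mono : ∀ i j, i ≤ j → ‖q j - q i‖ ≤ t j - t i := by
    intro i j h
    induction j, h using Nat.le_induction with
    | base => simp
    | succ j _ ih =>
      have := norm_sub_le_norm_sub_add_norm_sub (q (j + 1)) (q j) (q i)
      simp only [t, sum_range_succ] at ih ⊢
      linarith
  have per : q (n + 1) = q 0 := by simp [q]
  rw [hL]
  set T := t (n + 1) / 2 with hT
  have t0 : t 0 = 0 := by simp [t]
  have tb : ∀ i, i ≤ n + 1 → 0 ≤ t i ∧ t i ≤ 2 * T := fun i h => by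
    have := mono 0 i i.zero_le
    have := mono i _ h
    constructor <;> linarith [norm_nonneg (q i - q 0), norm_nonneg (q (n + 1) - q i)]
  have T0 : 0 ≤ T := by linarith [tb 0 (by omega)]
  let a : ℕ → ℝ := fun i => if t i ≤ T then t i else t i - T
  let e : ℕ → ℝ := fun i => if t i ≤ T then 1 else -1
  have ab : ∀ i, i ≤ n + 1 → 0 ≤ a i ∧ a i ≤ T := fun i h => by
    have := tb i h
    simp only [a]; split_ifs <;> constructor <;> linarith
  have key : ∀ i j, i ≤ j → j ≤ n + 1 →
      2 * ‖q j - q i‖ ≤ T - e i * e j * (T - 2 * |a i - a j|) := by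
    intro i j h hj
    have m1 := mono i j h
    have m2 := mono 0 i i.zero_le
    have m3 := mono j _ hj
    have m4 := norm_sub_le_norm_sub_add_norm_sub (q j) (q 0) (q i)
    rw [per, norm_sub_rev] at m3
    rw [norm_sub_rev (q 0)] at m4
    have := norm_nonneg (q j - q i)
    simp only [a, e]
    split_ifs <;> cases abs_cases (t i - t j) <;> cases abs_cases (t i - (t j - T)) <;>
      cases abs_cases (t i - T - (t j - T)) <;> cases abs_cases (t i - T - t j) <;> linarith
  let g : ℝ → ℝ → ℝ := fun c u => if u ≤ c then 1 else -1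
  have gi : ∀ b c, b ≤ c → ∀ u, g b u * g c u = 1 - 2 * (Set.Ioc b c).indicator 1 u := by
    intro b c h u
    simp only [g, indicator, Set.mem_Ioc, Pi.one_apply]
    split_ifs <;> grind
  have I : ∀ b c, 0 ≤ b → b ≤ c → c ≤ T → IntegrableOn (fun u => g b u * g c u) (Set.Ioc 0 T) ∧
      ∫ u in Set.Ioc 0 T, g b u * g c u = T - 2 * |b - c| := by
    intro b c h1 h2 h3
    have i1 : IntegrableOn (fun _ : ℝ => (1 : ℝ)) (Set.Ioc 0 T) := integrableOn_const (by simp)
    have i2 : Integrable (fun u => 2 * (Set.Ioc b c).indicator (1 : ℝ → ℝ) u)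
        (volume.restrict (Set.Ioc 0 T)) :=
      (i1.indicator (measurableSet_Ioc (a := b) (b := c))).const_mul 2
    simp only [gi b c h2]
    refine ⟨i1.sub i2, ?_⟩
    rw [integral_sub i1 i2, integral_const_mul, integral_indicator_one measurableSet_Ioc,
      measureReal_restrict_apply measurableSet_Ioc,
      inter_eq_left.mpr (Set.Ioc_subset_Ioc h1 h3), abs_of_nonpos (by linarith)]
    simp [T0, h2]
  have I' : ∀ b c, 0 ≤ b ∧ b ≤ T → 0 ≤ c ∧ c ≤ T →
      IntegrableOn (fun u => g b u * g c u) (Set.Ioc 0 T) ∧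
      ∫ u in Set.Ioc 0 T, g b u * g c u = T - 2 * |b - c| := by
    intro b c h1 h2
    rcases le_total b c with h | h
    · exact I b c h1.1 h h2.2
    · simpa only [mul_comm (g c _), abs_sub_comm c] using I c b h2.1 h h1.2
  have hr' : Set.range p = Set.range fun k : Fin (n + 1) => q k := by
    simp only [q, Fin.ofNat_val_eq_self]
    exact (σ.surjective.range_comp p).symm
  rw [hr', convexHull_range_eq_exists_affineCombination] at h0
  obtain ⟨s, w, w0, w1, hw⟩ := h0
  rw [affineCombination_eq_linear_combination _ _ _ w1] at hw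
  have one : ∀ j ∈ s, 1 ≤ ∑ i ∈ s, w i * ‖q j - q i‖ := fun j _ => by
    have : q j = ∑ i ∈ s, w i • (q j - q i) := by
      simp only [smul_sub, sum_sub_distrib, ← sum_smul, w1, hw, one_smul, sub_zero]
    calc 1 = ‖q j‖ := (hp _).symm
      _ ≤ ∑ i ∈ s, ‖w i • (q j - q i)‖ := by
        conv_lhs => rw [this]
        exact norm_sum_le _ _
      _ = _ := sum_congr rfl fun i hi => by rw [norm_smul, Real.norm_of_nonneg (w0 i hi)]
  have key' : ∀ i j : Fin (n + 1), 2 * ‖q j - q i‖ ≤ T - e i * e j * (T - 2 * |a i - a j|) := by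
    intro i j
    rcases le_total (i : ℕ) j with h | h
    · exact key i j h j.2.le
    · rw [norm_sub_rev, abs_sub_comm, mul_comm (e i)]; exact key j i h i.2.le
  have J := fun i j : Fin (n + 1) => I' _ _ (ab i i.2.le) (ab j j.2.le)
  have pos : 0 ≤ ∑ j ∈ s, ∑ i ∈ s, w j * w i * (e i * e j * (T - 2 * |a i - a j|)) := by
    have : ∑ j ∈ s, ∑ i ∈ s, w j * w i * (e i * e j * (T - 2 * |a i - a j|)) =
        ∫ u in Set.Ioc 0 T, ∑ j ∈ s, ∑ i ∈ s,
          w j * w i * (e i * e j) * (g (a i) u * g (a j) u) := by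
      rw [integral_finsetSum _ fun j _ => integrable_finsetSum _ fun i _ =>
        (J i j).1.const_mul _]
      refine sum_congr rfl fun j _ => ?_
      rw [integral_finsetSum _ fun i _ => (J i j).1.const_mul _]
      refine sum_congr rfl fun i _ => ?_
      rw [integral_const_mul, (J i j).2]; ring
    rw [this]
    refine integral_nonneg fun u => ?_
    have := mul_self_nonneg (∑ j ∈ s, w j * e j * g (a j) u)
    rw [sum_mul_sum] at this
    refine this.trans_eq (sum_congr rfl fun j _ => sum_congr rfl fun i _ => by ring)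
  have h1 : 2 ≤ ∑ j ∈ s, ∑ i ∈ s, w j * w i * (2 * ‖q j - q i‖) := by
    calc (2 : ℝ) = ∑ j ∈ s, w j * 2 * 1 := by rw [← sum_mul, ← sum_mul, w1]; norm_num
      _ ≤ ∑ j ∈ s, w j * 2 * ∑ i ∈ s, w i * ‖q j - q i‖ :=
        sum_le_sum fun j hj => mul_le_mul_of_nonneg_left (one j hj) (by linarith [w0 j hj])
      _ = _ := sum_congr rfl fun j _ => by
        rw [mul_sum]; exact sum_congr rfl fun i _ => by ring
  have h2 : ∑ j ∈ s, ∑ i ∈ s, w j * w i * (2 * ‖q j - q i‖) ≤
      ∑ j ∈ s, ∑ i ∈ s, w j * w i * (T - e i * e j * (T - 2 * |a i - a j|)) :=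
    sum_le_sum fun j hj => sum_le_sum fun i hi =>
      mul_le_mul_of_nonneg_left (key' i j) (mul_nonneg (w0 j hj) (w0 i hi))
  simp only [mul_sub (_ * _) T (_ * _ * _), sum_sub_distrib, ← sum_mul, ← mul_sum, w1] at h2
  linarith

end Pool.Agent.Results.MP_768819_an.Circuit
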